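import Pool.Agent.Helper72_KACG.Out
import Pool.Agent.Helper77_KACG.ARZ
import Pool.Agent.Helper79_KACG.ENT
import Pool.Agent.Helper49_KACG.H_UNI
import Pool.Agent.Helper51_KACG.H_GAU
import Pool.Agent.Helper79_KACG.HIL
import Pool.Agent.Helper28_KACG.H_MIN
import Pool.Agent.Helper88_KACG.REG
import Pool.Agent.Helper59_KACG.H_VOL
import Pool.Agent.Helper95_KACG.WEK
import Pool.Agent.Helper59_KACG.S_CNT
import Pool.Agent.Helper40_KACG.S_EIG
import Pool.Agent.Helper89_KACG.S_HOL
import Pool.Agent.Helper8_KACG.HOU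
import Pool.Agent.Helper8_KACG.MUL
import Pool.Agent.Helper8_KACG.SIM
import Pool.Agent.Helper34_KACG.LOB
import Pool.Agent.Helper96_KACG.LOW
import Pool.Agent.Helper59_KACG.S_ONE
import Pool.Agent.Helper96_KACG.ORT
import Pool.Agent.Helper44_KACG.S_SLO
import Pool.Agent.Helper92_KACG.S_TPQ
import Pool.Agent.Helper92_KACG.S_UPP
import Pool.Agent.Helper91_KACG.S_WEL
import Pool.Agent.Helper65_KACG.S_ZER
import Pool.Agent.Helper26_KACR.All

/-! Squad KACG: assembly.  `HillStmt`, `SloStmt` and `KG.OneDStmt` are proved. -/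

namespace Pool.Agent.KACG.Asm

open Pool.Agent.KACG

theorem vol : VolStmt := H59.vol

theorem uni : UniStmt := H49.uni vol

theorem ent : EntStmt := H79.ent vol

theorem flo : FloStmt := H49.flo vol

theorem gau : GauStmt := H51.h_gau

theorem arz : ArzStmt := H77.arz

theorem wek : WekStmt := H95.wek

theorem reg : RegStmt := H88.reg

theorem min_ : MinStmt := H28.h_min gau arz wek reg

/-- `HillStmt` -/
theorem hill : HillStmt := H79.hil min_ flo ent gau

theorem tpq : TpqStmt := H92.tpq

theorem zer : ZerStmt := H65.s_zer vol uni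

theorem ort : OrtStmt := H96.ort

theorem low : LowStmt := H96.low zer ort

theorem one : OneStmt := H59.one tpq arz reg

theorem sim : SimStmt := H8.sim vol uni

theorem eig : EigStmt := H40.eig one sim flo

theorem hol : HolStmt := H89.s_hol

theorem hou : HouStmt := H8.hou

theorem wel : WelStmt := H91.wel

theorem upp : UppStmt := H92.upp hou

theorem lob : LobStmt := H34.lob hol

theorem cnt : CntStmt := H59.cnt upp lob eig low

theorem mul_ : MulStmt := H8.mul_

/-- `SloStmt` -/
theorem slo : SloStmt := H44.s_slo wel cnt mul_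

/-- `OneDStmt` of KG -/
theorem oned : Pool.Agent.KG.OneDStmt := H72.oned hill slo Pool.Agent.KACR.H26.recon

end Pool.Agent.KACG.Asm
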