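import Pool.Agent.KACG.Slopes
import Pool.Agent.KACR.Stmts
import Pool.Agent.KG.Stmts

/-!
# KACG: the one-dimensional part of Theorem G (`OneDStmt` of KG) from HILL, SLOPES and RECON
-/

open scoped ComplexConjugate ContDiff Real

noncomputable section

namespace Pool.Agent.KACG.H72

open Pool.Agent.KACG

theorem lam_eq (q : ℝ → ℝ) (b : ℝ) : Pool.Agent.KACG.lam (2 * π) q b = Pool.Agent.KG.lam q b := by
  unfold Pool.Agent.KACG.lam Pool.Agent.KG.lam
  congr 1
  ext t
  constructor
  · rintro ⟨χ, h1, h2, h3, h4⟩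
    exact ⟨χ, ⟨h1, h2⟩, h3, h4⟩
  · rintro ⟨χ, ⟨h1, h2⟩, h3, h4⟩
    exact ⟨χ, h1, h2, h3, h4⟩

theorem iter2 (k : ℝ → ℝ) : iteratedDeriv 2 k = deriv (deriv k) := by
  rw [iteratedDeriv_succ, iteratedDeriv_one]

/-- the generic condition of KG gives the one of KACR -/
theorem gen_of_nice {k : ℝ → ℝ} (hk : Pool.Agent.KG.Sm k) (hn : Pool.Agent.KG.Nice k) :
    Pool.Agent.KACR.Gen (2 * π) k := by
  have hpos : (0 : ℝ) < 2 * π := by positivity
  have hp1 : Function.Periodic (deriv k) (2 * π) := by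
    intro s
    have : (fun x => k (x + 2 * π)) = k := funext hk.2
    calc deriv k (s + 2 * π) = deriv (fun x => k (x + 2 * π)) s := by
          rw [deriv_comp_add_const]
      _ = deriv k s := by rw [this]
  have hp2 : Function.Periodic (deriv (deriv k)) (2 * π) := by
    intro s
    have : (fun x => deriv k (x + 2 * π)) = deriv k := funext hp1
    calc deriv (deriv k) (s + 2 * π) = deriv (fun x => deriv k (x + 2 * π)) s := by
          rw [deriv_comp_add_const]
      _ = deriv (deriv k) s := by rw [this]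
  refine ⟨hpos, hk.1, hk.2, ?_, ?_⟩
  · intro s t h0 h1 h2
    have e0 : ∀ (f : ℝ → ℝ), Function.Periodic f (2 * π) → ∀ x, f (toIcoMod hpos 0 x) = f x := by
      intro f hf x
      rw [toIcoMod]
      exact hf.sub_zsmul_eq _
    have m : ∀ x, toIcoMod hpos 0 x ∈ Set.Ico 0 (2 * π) := by
      intro x
      have := toIcoMod_mem_Ico hpos 0 x
      rwa [zero_add] at this
    have key := hn.inj (toIcoMod hpos 0 s) (m s) (toIcoMod hpos 0 t) (m t)
      (by rw [e0 k hk.2, e0 k hk.2]; exact h0)
      (by rw [e0 _ hp1, e0 _ hp1]; exact h1)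
      (by rw [iter2, e0 _ hp2, e0 _ hp2]; exact h2)
    refine ⟨toIcoDiv hpos 0 t - toIcoDiv hpos 0 s, ?_⟩
    have hs := toIcoMod_add_toIcoDiv_zsmul hpos 0 s
    have ht := toIcoMod_add_toIcoDiv_zsmul hpos 0 t
    simp only [zsmul_eq_mul] at hs ht
    push_cast
    rw [key] at hs
    linarith
  · intro s hs
    have := hn.mor s hs
    rwa [iter2] at this

theorem oned (hH : HillStmt) (hS : SloStmt) (hR : Pool.Agent.KACR.ReconStmt) :
    Pool.Agent.KG.OneDStmt := by
  intro k k' hk hk' hn hn' hl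
  have hpos : (0 : ℝ) < 2 * π := by positivity
  have hd : ∀ c g : ℝ, disc (2 * π) (pot k c g) = disc (2 * π) (pot k' c g) := by
    intro c g
    have e : ∀ f : ℝ → ℝ, pot f c g =
        fun s => g * c ^ 2 + -2 * g * c * f s + g * f s ^ 2 := by
      intro f
      funext s
      simp only [pot]
      ring
    apply hH (2 * π) (pot k c g) (pot k' c g) hpos
    · rw [e]
      exact ((contDiff_const.add (contDiff_const.mul hk.1)).add (contDiff_const.mul (hk.1.pow 2)))
    · rw [e]
      exact ((contDiff_const.add (contDiff_const.mul hk'.1)).add (contDiff_const.mul (hk'.1.pow 2)))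
    · intro s
      simp only [pot, hk.2 s]
    · intro s
      simp only [pot, hk'.2 s]
    · intro b
      rw [lam_eq, lam_eq, e, e]
      exact (hl (g * c ^ 2) (-2 * g * c) g b).symm
  obtain ⟨s₀, h⟩ := hR (2 * π) k k' (gen_of_nice hk hn) (gen_of_nice hk' hn') (by
    intro c hc hc'
    exact hS (2 * π) k k' c hpos hk.1 hk'.1 hk.2 hk'.2 hc hc' (fun g _ => hd c g))
  rcases h with h | h
  · exact Or.inl ⟨s₀, h⟩
  · exact Or.inr ⟨s₀, h⟩

end Pool.Agent.KACG.H72
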